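import Pool.Agent.Lib.MP_5022ed_ag.Dim

set_option autoImplicit false

namespace Pool.Agent.Retired.MP_5022ed_ag.EssFiniteType

open Pool.Agent.Lib.MP_5022ed_ag

/-- Let `R` be a strongly F-regular local ring of prime characteristic `p` and dimension `d`,
essentially of finite type over a field, with perfect residue field. Then the F-splitting
numbers satisfy `a_e = s p^(e d) + C p^(e (d - 1)) + O(p^(e (d - 2)))`. -/
theorem result (p : ℕ) (hp : p.Prime) (k R : Type*) [Field k] [CommRing R] [IsLocalRing R]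
    [Algebra k R] [Algebra.EssFiniteType k R] [CharP R p] (d : ℕ)
    (hd : ringKrullDim R = (d : WithBot ℕ∞))
    (hperf : ∀ y : R, ∃ z : R, y - z ^ p ∈ IsLocalRing.maximalIdeal R)
    (hSFR : ∀ c : R, (∀ P ∈ minimalPrimes R, c ∉ P) → ∃ e : ℕ, 1 ≤ e ∧ ∃ φ : R →+ R,
      (∀ r y : R, φ (r ^ (p ^ e) * y) = r * φ y) ∧ φ c = 1) :
    ∃ s C K : ℝ, ∀ e : ℕ, ∃ a : ℕ,
      IsGreatest {n : ℕ | ∃ φ : Fin n → (R →+ R), ∃ x : Fin n → R,
          (∀ (i : Fin n) (r y : R), φ i (r ^ (p ^ e) * y) = r * φ i y) ∧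
          ∀ i j : Fin n, φ i (x j) = if i = j then 1 else 0} a ∧
      |(a : ℝ) - s * (p : ℝ) ^ ((e : ℝ) * (d : ℝ))
          - C * (p : ℝ) ^ ((e : ℝ) * ((d : ℝ) - 1))|
        ≤ K * (p : ℝ) ^ ((e : ℝ) * ((d : ℝ) - 2)) := by
  have : Fact p.Prime := ⟨hp⟩
  have : CharP k p := (algebraMap k R).charP (algebraMap k R).injective p
  have : IsNoetherianRing R := Algebra.EssFiniteType.isNoetherianRing k R
  have : IsDomain R := isDomain_of_sfr hp.two_le hSFR
  have : PerfectField k := by
    let _ := Ideal.Quotient.field (IsLocalRing.maximalIdeal R)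
    refine perfectField_of_perfect (p := p) k (R ⧸ IsLocalRing.maximalIdeal R) fun y => ?_
    obtain ⟨y, rfl⟩ := Ideal.Quotient.mk_surjective y
    obtain ⟨z, hz⟩ := hperf y
    exact ⟨Ideal.Quotient.mk _ z, by rw [← map_pow, eq_comm, Ideal.Quotient.eq]; exact hz⟩
  simp only [← dual_iff]
  cases d with
  | zero => exact ⟨1, 0, 0, fun e => ⟨1, main_zero hp.two_le hd hperf e, by simp⟩⟩
  | succ n =>
    have hF : SFR p R := fun c hc => by
      obtain ⟨e, he, φ, hφ, h1⟩ := hSFR c fun P hP => by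
        rw [IsDomain.minimalPrimes_eq_singleton_bot] at hP
        rw [Set.mem_singleton_iff.1 hP]
        simpa using hc
      exact ⟨e, he, { toFun := fun r => φ ((Fr.mk p e).symm r)
                      map_add' := fun a b => by rw [map_add, map_add]
                      map_smul' := fun r y => hφ r _ }, h1⟩
    obtain ⟨htop, s, C, K, h⟩ := main_pos (k := k) hp.two_le hd hperf hF
    exact ⟨s, C, K, fun e => ⟨_, isGreatest_dual (htop e), h e⟩⟩

end Pool.Agent.Retired.MP_5022ed_ag.EssFiniteType
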